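import Pool.Agent.K7.H86.Cup.Exist

/-!
# MP_ab534e_nt: the cup-of-coffee sequence contains all even numbers and all primes
-/

set_option autoImplicit false

namespace Pool.Agent.Results.MP_ab534e_nt.EvenNumbersOccur

/-- The sequence of the problem: `a 1 = 1`, `a 2 = 2`, and for `n ≥ 3` the term `a n` is the least
positive integer `m` which is none of `a 1, …, a (n - 1)`, is divisible by every prime dividing
`a (n - 1)` but not `a (n - 2)`, and by no prime dividing both `a (n - 1)` and `a (n - 2)`. -/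
structure CupOfCoffee (a : ℕ → ℕ) : Prop where
  one : a 1 = 1
  two : a 2 = 2
  step : ∀ n, 3 ≤ n → IsLeast {m : ℕ | 0 < m ∧ (∀ i, 1 ≤ i → i < n → a i ≠ m) ∧
    (∀ p, p.Prime → p ∣ a (n - 1) → ¬ p ∣ a (n - 2) → p ∣ m) ∧
    (∀ p, p.Prime → p ∣ a (n - 1) → p ∣ a (n - 2) → ¬ p ∣ m)} (a n)

/-- `m` is a term of the sequence `a 1, a 2, …` -/
def Occurs (a : ℕ → ℕ) (m : ℕ) : Prop := ∃ n, 1 ≤ n ∧ a n = m

open Pool.Agent.K7.H86.Cup in
theorem CupOfCoffee.isCup {a : ℕ → ℕ} (h : CupOfCoffee a) : IsCup a := ⟨h.one, h.two, h.step⟩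

open Pool.Agent.K7.H86.Cup

variable {a : ℕ → ℕ}

/-- the first multiple of a number `M` -/
theorem first_multiple (h : IsCup a) {M t : ℕ} (hM : 0 < M) (ht : 3 ≤ t) (hd : M ∣ a t)
    (hmin : ∀ i, 1 ≤ i → i < t → ¬ M ∣ a i) : a t = M.lcm (q a (t - 1)) := by
  have hq0 : q a (t - 1) ≠ 0 := (q_pos a _).ne'
  have hm : 0 < M.lcm (q a (t - 1)) := Nat.lcm_pos hM (q_pos a _)
  have hpf : (M.lcm (q a (t - 1))).primeFactors = M.primeFactors ∪ N a (t - 1) := by
    ext p
    rw [Finset.mem_union, ← q_pf, Nat.mem_primeFactors, Nat.mem_primeFactors, Nat.mem_primeFactors]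
    constructor
    · rintro ⟨hp, hd', -⟩
      have h1 : p ∣ M * q a (t - 1) :=
        hd'.trans (Nat.lcm_dvd (dvd_mul_right _ _) (dvd_mul_left _ _))
      rcases hp.dvd_mul.1 h1 with h2 | h2
      · exact Or.inl ⟨hp, h2, hM.ne'⟩
      · exact Or.inr ⟨hp, h2, hq0⟩
    · rintro (⟨hp, hd', -⟩ | ⟨hp, hd', -⟩)
      · exact ⟨hp, hd'.trans (Nat.dvd_lcm_left _ _), hm.ne'⟩
      · exact ⟨hp, hd'.trans (Nat.dvd_lcm_right _ _), hm.ne'⟩
  have hu := h.union (n := t - 1) (by omega)
  rw [Nat.sub_add_cancel (by omega)] at hu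
  have hMt : M.primeFactors ⊆ P a t := Nat.primeFactors_mono hd (h.pos (by omega)).ne'
  have hle : a (t - 1 + 1) ≤ M.lcm (q a (t - 1)) := by
    refine h.least (by omega) hm ?_ ⟨?_, ?_⟩
    · intro i h1 h2 he
      exact hmin i h1 (by omega) (by rw [he]; exact Nat.dvd_lcm_left _ _)
    · rw [hpf]; exact Finset.subset_union_right
    · have h1 := (h.cand (n := t - 1) (by omega)).2
      rw [Nat.sub_add_cancel (by omega)] at h1
      refine h1.mono_right ?_
      rw [hpf]
      exact Finset.union_subset hMt (by rw [hu]; exact Finset.subset_union_left)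
  rw [Nat.sub_add_cancel (by omega)] at hle
  have hdv : M.lcm (q a (t - 1)) ∣ a t := by
    refine Nat.lcm_dvd hd (prod_dvd (fun p hp => prime_of_mem hp) fun p hp => ?_)
    have : p ∈ P a t := by rw [hu]; exact Finset.mem_union_left _ hp
    exact Nat.dvd_of_mem_primeFactors this
  exact le_antisymm hle (Nat.le_of_dvd (h.pos (by omega)) hdv)

theorem memN (h : IsCup a) {n : ℕ} (hn : 2 ≤ n) (p : ℕ) :
    p ∈ N a n ↔ p.Prime ∧ p ∣ a n ∧ ¬ p ∣ a (n - 1) := by
  unfold N
  rw [Finset.mem_sdiff, h.memP (by omega), h.memP (by omega)]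
  tauto

/-- the conditions for a missing number fail for all large `n` -/
theorem missing (h : IsCup a) {x : ℕ} (hx : 0 < x) (hmiss : ¬ Occurs a x) :
    ∃ n₀, 3 ≤ n₀ ∧ ∀ n, n₀ ≤ n → (∀ p, p.Prime → p ∣ a n → ¬ p ∣ a (n - 1) → p ∣ x) →
      ∃ p, p.Prime ∧ p ∣ x ∧ p ∣ a (n - 1) ∧ ¬ p ∣ a (n - 2) := by
  have hfin : {n | 2 ≤ n ∧ Cand a n x.primeFactors}.Finite := by
    by_contra hinf
    exact hmiss (h.freq hx hinf)
  obtain ⟨b, hb⟩ := hfin.bddAbove
  refine ⟨b + 3, by omega, fun n hn hx' => ?_⟩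
  by_contra hne
  push Not at hne
  have : n ≤ b := hb ⟨by omega, ?_, ?_⟩
  · omega
  · intro p hp
    obtain ⟨h1, h2, h3⟩ := (memN h (by omega) p).1 hp
    exact Nat.mem_primeFactors.2 ⟨h1, hx' p h1 h2 h3, hx.ne'⟩
  · rw [Finset.disjoint_left]
    intro p hp hq
    obtain ⟨h1, h2, h3⟩ := (memN h (by omega) p).1 hp
    have e : n - 1 - 1 = n - 2 := by omega
    rw [e] at h3
    exact h3 (hne p h1 (Nat.dvd_of_mem_primeFactors hq) h2)

/-- **Theorem.** The sequence of the problem exists; it contains every even number and every prime.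
For every finite set `T` of primes either all the numbers with the set `T` of prime divisors are
terms or only finitely many of them. For every `M ≥ 1` the first multiple `a t`, `t ≥ 3`, of `M` in
the sequence is the least common multiple of `M` and the product of the primes which divide
`a (t - 1)` but not `a (t - 2)`. If a positive integer `x` is not a term, then `x` is odd and composite,

* for all large `n`: if every prime dividing `a n` but not `a (n - 1)` divides `x`, then some prime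
divisor of `x` divides `a (n - 1)` but not `a (n - 2)`;
* for all large primes `l`: the first multiple `a j` of `l` in the sequence is `l` itself,
`a (j + 1) = 2 l`, every prime divisor of `a (j - 1)` divides `a (j - 2)`, the numbers `x` and
`a (j - 1)` have a common prime divisor, and all positive integers below `l` which are coprime to
`a (j - 1)` are among `a 1, …, a (j - 1)`. -/
theorem result : (∃ a, CupOfCoffee a) ∧ ∀ a, CupOfCoffee a →
    (∀ m, 0 < m → Even m → Occurs a m) ∧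
    (∀ p, p.Prime → Occurs a p) ∧
    (∀ T : Finset ℕ, (∀ m, 0 < m → m.primeFactors = T → Occurs a m) ∨
      {m | m.primeFactors = T ∧ Occurs a m}.Finite) ∧
    (∀ M t, 0 < M → 3 ≤ t → M ∣ a t → (∀ i, 1 ≤ i → i < t → ¬ M ∣ a i) →
      a t = M.lcm (∏ p ∈ (a (t - 1)).primeFactors \ (a (t - 2)).primeFactors, p)) ∧
    (∀ x, 0 < x → ¬ Occurs a x →
      (Odd x ∧ ¬ x.Prime ∧ x ≠ 1) ∧
      (∃ n₀, 3 ≤ n₀ ∧ ∀ n, n₀ ≤ n → (∀ p, p.Prime → p ∣ a n → ¬ p ∣ a (n - 1) → p ∣ x) →
        ∃ p, p.Prime ∧ p ∣ x ∧ p ∣ a (n - 1) ∧ ¬ p ∣ a (n - 2)) ∧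
      (∃ b, ∀ l, l.Prime → b < l → ∃ j, 3 ≤ j ∧ a j = l ∧ a (j + 1) = 2 * l ∧
        (∀ i, 1 ≤ i → i < j → ¬ l ∣ a i) ∧
        (∀ p, p.Prime → p ∣ a (j - 1) → p ∣ a (j - 2)) ∧
        (∃ p, p.Prime ∧ p ∣ x ∧ p ∣ a (j - 1)) ∧
        (∀ m, 0 < m → m < l → m.Coprime (a (j - 1)) → ∃ i, 1 ≤ i ∧ i < j ∧ a i = m))) := by
  refine ⟨⟨cup, cup_isCup.one, cup_isCup.two, cup_isCup.step⟩, fun a ha => ?_⟩
  have h := ha.isCup
  refine ⟨fun m hm he => h.even hm he.two_dvd, fun p hp => h.prime hp, fun T => h.all_or_fin T,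
    fun M t hM ht hd hmin => ?_, fun x hx hmiss => ⟨⟨?_, ?_, ?_⟩, ?_, ?_⟩⟩
  · have := first_multiple h hM ht hd hmin
    rw [this]
    rfl
  · by_contra ho
    rw [Nat.not_odd_iff_even] at ho
    exact hmiss (h.even hx ho.two_dvd)
  · exact fun hp => hmiss (h.prime hp)
  · rintro rfl
    exact hmiss ⟨1, le_rfl, ha.one⟩
  · exact missing h hx hmiss
  · have hfin : {l : ℕ | l.Prime ∧ ∃ j, 1 ≤ j ∧ l ∣ a j ∧ a j ≠ l ∧
        ∀ i, 1 ≤ i → i < j → ¬ l ∣ a i}.Finite := by
      by_contra hinf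
      exact hmiss (h.surj hinf hx)
    obtain ⟨b, hb⟩ := hfin.bddAbove
    obtain ⟨n₀, hn0, hn⟩ := missing h hx hmiss
    refine ⟨b + (∑ i ∈ Finset.range (n₀ + 2), a i) + 3, fun l hl hbl => ?_⟩
    obtain ⟨j, hj3, hmin, haj, hNj, hcase⟩ := h.first hl (by omega)
    have hld : l ∣ a j := by rw [haj]; exact dvd_mul_left _ _
    rcases hcase with ⟨-, hne, -, -⟩ | ⟨hE, hjl, hj2, -⟩
    · exfalso
      have := hb (show l ∈ _ from ⟨hl, j, by omega, hld, hne, hmin⟩)
      omega
    have hjn : n₀ + 2 ≤ j := by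
      by_contra hlt
      push Not at hlt
      have h1 : a j ≤ ∑ i ∈ Finset.range (n₀ + 2), a i :=
        Finset.single_le_sum (f := a) (fun _ _ => Nat.zero_le _) (Finset.mem_range.2 hlt)
      omega
    have hfree : ∀ p, p.Prime → p ∣ a (j - 1) → p ∣ a (j - 2) := by
      intro p hp hd
      by_contra hnd
      have : p ∈ N a (j - 1) := (memN h (by omega) p).2 ⟨hp, hd, by
        have e : j - 1 - 1 = j - 2 := by omega
        rwa [e]⟩
      rw [hE] at this
      exact absurd this (Finset.notMem_empty p)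
    refine ⟨j, hj3, hjl, hj2, hmin, hfree, ?_, ?_⟩
    · obtain ⟨p, hp, hpx, hp1, hp2⟩ := hn (j - 1) (by omega) (by
        intro p hp hd hnd
        have e : j - 1 - 1 = j - 2 := by omega
        rw [e] at hnd
        exact absurd (hfree p hp hd) hnd)
      -- the prime `p` is new in `a (j - 2)`, so it divides `a (j - 1)`
      refine ⟨p, hp, hpx, ?_⟩
      have e1 : j - 1 - 1 = j - 2 := by omega
      have e2 : j - 1 - 2 = j - 2 - 1 := by omega
      rw [e1] at hp1
      rw [e2] at hp2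
      have hm : p ∈ N a (j - 2) := (memN h (by omega) p).2 ⟨hp, hp1, hp2⟩
      have := ((h.inter (n := j - 2) (by omega) p).2 hm).1
      have e3 : j - 2 + 1 = j - 1 := by omega
      rw [e3] at this
      exact Nat.dvd_of_mem_primeFactors this
    · intro m hm hml hco
      by_contra hnot
      push Not at hnot
      have hle : a (j - 1 + 1) ≤ m := by
        refine h.least (by omega) hm (fun i h1 h2 => hnot i h1 (by omega)) ⟨?_, ?_⟩
        · rw [hE]; exact Finset.empty_subset _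
        · rw [Finset.disjoint_left]
          intro p hp hq
          have e : j - 1 - 1 = j - 2 := by omega
          rw [e] at hp
          have h1 := ((h.inter (n := j - 2) (by omega) p).2 hp).1
          have e3 : j - 2 + 1 = j - 1 := by omega
          rw [e3] at h1
          have hpp := Nat.prime_of_mem_primeFactors hq
          exact Nat.Prime.one_lt hpp |>.ne' (Nat.dvd_one.1 (hco ▸ Nat.dvd_gcd
            (Nat.dvd_of_mem_primeFactors hq) (Nat.dvd_of_mem_primeFactors h1)))
      rw [Nat.sub_add_cancel (by omega), hjl] at hle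
      omega

end Pool.Agent.Results.MP_ab534e_nt.EvenNumbersOccur
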