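import Pool.Agent.K7.H37.CupCount

/-!
# MP_ab534e_nt, Q1 (partial): all numbers occur, except possibly numbers with one exact set of
prime divisors

`Adm a n` (in `Pool/Agent/K7/H37/Cup.lean`) is the set of the numbers that are admissible at step `n`:
positive, not among `a 1, ..., a (n-1)`, divisible by each prime that divides `a (n-1)` but not
`a (n-2)`, and not divisible by any prime that divides both. `IsCup a`: `a 1 = 1`, `a 2 = 2` and for
`n ≥ 3` the term `a n` is the least element of `Adm a n`. (The terms are `a 1, a 2, ...`; `a 0` plays
no role.)

Proof. Let `R n` be the set of the required primes at step `n`; then `R (n-1)` is the set of the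
forbidden ones, and the set of prime divisors of `a n` is the disjoint union of `R n` and `R (n+1)`.
A number that is admissible infinitely often is used.

1. Infinitely many steps have no required prime: otherwise, from some step on, the product of the
required primes is always an earlier term, hence all terms are composed of finitely many primes, some
nonempty set `T` of required primes (take a minimal one) recurs, and then all powers of the product
of `T` are used, which produces a smaller recurring set.
2. Therefore new primes `q` enter again and again; if `q` enters at a step with required primes, then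
`q` is the next term and after it every number not divisible by `q` is admissible; otherwise the terms
are `q, 2q` and after them all even numbers not divisible by `q` are admissible.
3. Call a finite set `S` of primes blocked if only finitely often `R n ⊆ S` and `R (n-1)` is disjoint
from `S`. Missing numbers have a blocked set of prime divisors. An unblocked nonempty set `T` is the
set of prime divisors of infinitely many terms, so for some partition `T = A ∪ B` infinitely often
`R n = A`, `R (n+1) = B`. Let `S` be a smallest blocked set; it has no element `2`. For each prime
`r ∉ S` such that `{r}` is not blocked the partition must be `(∅, {r})`, and so no set that contains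
`r` is blocked. If `S` has at least two elements, then for `p ∈ S` the partition of `{p}` is
`({p}, ∅)`, and so every blocked set contains `p`; if `S = {p}`, the same follows from `T = {2, p}`.
Hence `S` is the only blocked set.
-/

set_option autoImplicit false

namespace Pool.Agent.Results.MP_ab534e_nt.OneMissingSupport

open Pool.Agent.K7.H37.Cup

/-- The cup-of-coffee sequence exists, and for it: every prime is a term; there is one finite set `S`
of odd primes such that every positive integer that is not a term has exactly the prime divisors in
`S` (so that all positive integers with any other set of prime divisors are terms, in particular all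
even ones), at most `(log₂ x + 1) ^ |S|` of the numbers up to `x` are not terms, and, if some positive
integer is not a term, only finitely many numbers with the set `S` of prime divisors are terms;
moreover, in this case every sufficiently large prime `q` is itself the first term divisible by `q`
and is followed by the term `2 q`. -/
theorem result : (∃ a, IsCup a) ∧ ∀ a, IsCup a →
    (∀ q, q.Prime → ∃ n, 1 ≤ n ∧ a n = q) ∧
    (∃ S : Finset ℕ, (∀ p ∈ S, p.Prime ∧ p ≠ 2) ∧
      (∀ m, 0 < m → (∀ n, 1 ≤ n → a n ≠ m) → m.primeFactors = S) ∧
      (∀ x, {m | 0 < m ∧ m ≤ x ∧ ∀ n, 1 ≤ n → a n ≠ m}.ncard ≤ (Nat.log 2 x + 1) ^ S.card) ∧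
      ((∃ m, 0 < m ∧ ∀ n, 1 ≤ n → a n ≠ m) →
        {m | m.primeFactors = S ∧ ∃ n, 1 ≤ n ∧ a n = m}.Finite)) ∧
    ((∃ m, 0 < m ∧ ∀ n, 1 ≤ n → a n ≠ m) → ∃ B, ∀ q, q.Prime → B < q →
      ∃ i, 3 ≤ i ∧ a i = q ∧ a (i + 1) = 2 * q ∧ ∀ j, 1 ≤ j → j < i → ¬ q ∣ a j) := by
  refine ⟨⟨cup, isCup_cup⟩, fun a h => ⟨fun q hq => primes h hq, ?_, ?_⟩⟩
  · obtain ⟨S, hS1, hS2⟩ := unique h
    have key : ∀ m, 0 < m → (∀ n, 1 ≤ n → a n ≠ m) → m.primeFactors = S := fun m hm hno =>
      hS2 _ (fun p hp => Nat.prime_of_mem_primeFactors hp) (blocked_of_missing h hm hno)
    refine ⟨S, hS1, key, count_missing S key, ?_⟩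
    rintro ⟨m, hm, hno⟩
    have hb := blocked_of_missing h hm hno
    rw [key m hm hno] at hb
    exact finite_blocked h hb
  · rintro ⟨m, hm, hno⟩
    obtain ⟨B, hB⟩ := missing h hm hno
    refine ⟨B, fun q hq hqB => ?_⟩
    obtain ⟨i, h1, h2, h3, -, h4⟩ := hB q hq hqB
    exact ⟨i, h1, h2, h3, h4⟩

end Pool.Agent.Results.MP_ab534e_nt.OneMissingSupport
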